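import Pool.Agent.W128.VA.Stm

set_option autoImplicit false

namespace Pool.Agent.W371.VA.EOPC

open Pool.Agent.W128.VA Polynomial

noncomputable section

/-- the coefficient extraction -/
def E (σ s : ℤ) : Polynomial R0 →ₗ[ℂ] R0 :=
  Polynomial.lsum (R := ℂ) fun i : ℕ => LinearMap.mulLeft ℂ (PZ σ (s + i))

theorem eop_eq (σ s : ℤ) (p : R0) : eop σ s p = E σ s (tau σ p) := rfl

theorem E_monomial (σ s : ℤ) (i : ℕ) (c : R0) : E σ s (monomial i c) = PZ σ (s + i) * c := by
  simp [E, Polynomial.lsum_apply, Polynomial.sum_monomial_index]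

theorem E_C_mul (σ s : ℤ) (x : R0) (q : Polynomial R0) : E σ s (C x * q) = x * E σ s q := by
  induction q using Polynomial.induction_on' with
  | add p q hp hq => rw [mul_add, map_add, map_add, hp, hq, mul_add]
  | monomial n a => rw [C_mul_monomial, E_monomial, E_monomial]; ring

theorem E_X_pow_mul (σ s : ℤ) (k : ℕ) (q : Polynomial R0) :
    E σ s (X ^ k * q) = E σ (s + k) q := by
  induction q using Polynomial.induction_on' with
  | add p q hp hq => rw [mul_add, map_add, map_add, hp, hq]
  | monomial n a =>
    rw [X_pow_mul_monomial, E_monomial, E_monomial]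
    congr 2
    push_cast
    ring

/-- the coefficientwise derivative -/
def dl (i : ℕ) : Polynomial R0 →ₗ[ℂ] Polynomial R0 :=
  Polynomial.lsum (R := ℂ) fun l : ℕ =>
    ((monomial l : R0 →ₗ[R0] Polynomial R0).restrictScalars ℂ) ∘ₗ
      (MvPolynomial.pderiv i : Derivation ℂ R0 R0).toLinearMap

theorem dl_monomial (i l : ℕ) (c : R0) :
    dl i (monomial l c) = monomial l (MvPolynomial.pderiv i c) := by
  simp [dl, Polynomial.lsum_apply, Polynomial.sum_monomial_index]

theorem dl_C_mul (i : ℕ) (x : R0) (q : Polynomial R0) :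
    dl i (C x * q) = C (MvPolynomial.pderiv i x) * q + C x * dl i q := by
  induction q using Polynomial.induction_on' with
  | add p q hp hq => rw [mul_add, map_add, map_add, hp, hq]; ring
  | monomial n a =>
    rw [C_mul_monomial, dl_monomial, dl_monomial, C_mul_monomial, C_mul_monomial,
      Derivation.leibniz, ← map_add, smul_eq_mul, smul_eq_mul]
    congr 1
    ring

theorem dl_X_pow_mul (i k : ℕ) (q : Polynomial R0) :
    dl i (X ^ k * q) = X ^ k * dl i q := by
  induction q using Polynomial.induction_on' with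
  | add p q hp hq => rw [mul_add, map_add, map_add, hp, hq]; ring
  | monomial n a => rw [X_pow_mul_monomial, dl_monomial, dl_monomial, X_pow_mul_monomial]

theorem pderiv_E (h : S_PDER) (σ s : ℤ) (i : ℕ) (q : Polynomial R0) :
    MvPolynomial.pderiv i (E σ s q) = E σ s (dl i q)
      + ((σ : ℂ) / ((i : ℂ) + 1)) • E σ (s - (i + 1)) q := by
  have hPZ : ∀ t : ℤ, MvPolynomial.pderiv i (PZ σ t) =
      ((σ : ℂ) / ((i : ℂ) + 1)) • PZ σ (t - (i + 1)) := by
    intro t
    by_cases ht : 0 ≤ t
    · have h1 := (h σ t.toNat).1 i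
      have h2 : PZ σ t = P σ t.toNat := if_pos ht
      rw [h2, h1, Int.toNat_of_nonneg ht]
    · have h2 : PZ σ t = 0 := if_neg ht
      have h3 : PZ σ (t - (i + 1)) = 0 := if_neg (by omega)
      rw [h2, h3]; simp
  induction q using Polynomial.induction_on' with
  | add p q hp hq => simp only [map_add, hp, hq, smul_add]; abel
  | monomial n a =>
    rw [E_monomial, dl_monomial, E_monomial, E_monomial, Derivation.leibniz, hPZ,
      smul_eq_mul, smul_eq_mul, mul_smul_comm, mul_comm a,
      show s + (n : ℤ) - (i + 1) = s - (i + 1) + n by ring]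

theorem dl_tau (σ : ℤ) (i : ℕ) (p : R0) :
    dl i (tau σ p) = tau σ (MvPolynomial.pderiv i p) := by
  induction p using MvPolynomial.induction_on with
  | C a =>
    have h1 : tau σ (MvPolynomial.C a) = C (MvPolynomial.C a) := by
      have := (tau σ).commutes a
      exact this
    rw [h1, ← monomial_zero_left, dl_monomial]
    simp
  | add p q hp hq => simp only [map_add, hp, hq]
  | mul_X p j hp =>
    rw [map_mul, tau_X, mul_comm, sub_mul, map_sub, dl_C_mul, smul_mul_assoc, map_smul,
      dl_X_pow_mul, hp, Derivation.leibniz, smul_eq_mul, smul_eq_mul, map_add, map_mul, map_mul,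
      tau_X, MvPolynomial.pderiv_X]
    by_cases hij : i = j
    · subst hij
      simp only [Pi.single_eq_same, map_one, Algebra.smul_def]
      ring
    · have : (Pi.single i 1 : ℕ → R0) j = 0 := by
        rw [Pi.single_apply, if_neg (Ne.symm hij)]
      rw [this]
      simp only [map_zero, Algebra.smul_def]
      ring

theorem main : S_PDER → S_EOPC := by
  intro h σ s
  refine ⟨fun i p => ?_, fun i p => ?_, ?_⟩
  · rw [eop_eq, map_mul, tau_X, sub_mul, map_sub, E_C_mul, smul_mul_assoc, map_smul,
      E_X_pow_mul, eop_eq, eop_eq]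
    push_cast
    rfl
  · rw [eop_eq, pderiv_E h, dl_tau]
    rfl
  · rw [eop_eq, map_one, ← monomial_zero_one, E_monomial]
    simp

end

end Pool.Agent.W371.VA.EOPC
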