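import Pool.Agent.W128.VA.Stm

set_option autoImplicit false

namespace Pool.Agent.W371.VA.GR

open Pool.Agent.W128.VA Module

noncomputable section

section gen
variable {ι V : Type*} [AddCommGroup V] [Module ℂ V] (b : Basis ι ℂ V) (w : ι → ℤ)

/-- the pieces -/
def G (n : ℤ) : Submodule ℂ V := Submodule.span ℂ (b '' {i | w i = n})

theorem repr_diag (L : Module.End ℂ V) (hL : ∀ i, L (b i) = (w i : ℂ) • b i) (v : V) (i : ι) :
    b.repr (L v) i = (w i : ℂ) * b.repr v i := by
  classical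
  have h : (b.coord i) ∘ₗ L = (w i : ℂ) • b.coord i := by
    refine b.ext fun j => ?_
    rw [LinearMap.comp_apply, hL, map_smul, LinearMap.smul_apply, Basis.coord_apply,
      Basis.repr_self, Finsupp.single_apply]
    by_cases hj : j = i
    · subst hj; rfl
    · simp [hj]
  exact congrArg (fun f : V →ₗ[ℂ] ℂ => f v) h

theorem mem_G_iff (L : Module.End ℂ V) (hL : ∀ i, L (b i) = (w i : ℂ) • b i) (n : ℤ) (v : V) :
    v ∈ G b w n ↔ L v = (n : ℂ) • v := by
  rw [G, Basis.mem_span_image]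
  constructor
  · intro h
    apply b.repr.injective
    ext i
    rw [repr_diag b w L hL, map_smul, Finsupp.smul_apply, smul_eq_mul]
    by_cases hi : b.repr v i = 0
    · rw [hi]; simp
    · have : w i = n := h (Finsupp.mem_support_iff.2 hi)
      rw [this]
  · intro h i hi
    have h1 := congrArg (fun u => b.repr u i) h
    simp only [repr_diag b w L hL, map_smul, Finsupp.smul_apply, smul_eq_mul] at h1
    have h2 : b.repr v i ≠ 0 := Finsupp.mem_support_iff.1 hi
    have h3 := mul_right_cancel₀ h2 h1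
    exact_mod_cast h3

theorem internal : DirectSum.IsInternal (G b w) := by
  classical
  let L : Module.End ℂ V := b.constr ℂ (fun i => (w i : ℂ) • b i)
  have hL : ∀ i, L (b i) = (w i : ℂ) • b i := fun i => b.constr_basis _ _ _
  have hG : ∀ n, G b w n = L.eigenspace (n : ℂ) := by
    intro n
    ext v
    rw [mem_G_iff b w L hL, Module.End.mem_eigenspace_iff]
  rw [DirectSum.isInternal_submodule_iff_iSupIndep_and_iSup_eq_top]
  constructor
  · have h1 := (Module.End.eigenspaces_iSupIndep L).comp (f := fun n : ℤ => (n : ℂ))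
      Int.cast_injective
    have h2 : G b w = (L.eigenspace ∘ fun n : ℤ => (n : ℂ)) := by
      funext n; exact hG n
    rw [h2]
    exact h1
  · rw [eq_top_iff, ← b.span_eq, Submodule.span_le]
    rintro _ ⟨i, rfl⟩
    exact Submodule.mem_iSup_of_mem (w i) (Submodule.subset_span ⟨i, rfl, rfl⟩)

end gen

/-- the monomial basis of the Fock space -/
def bs : Basis (Σ _ : ℤ, ℕ →₀ ℕ) ℂ V0 :=
  Finsupp.basis fun _ : ℤ => MvPolynomial.basisMonomials ℕ ℂ

theorem bs_apply (i : Σ _ : ℤ, ℕ →₀ ℕ) :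
    bs i = Finsupp.single i.1 (MvPolynomial.monomial i.2 (1 : ℂ)) := by
  rw [bs, Finsupp.coe_basis]
  simp only [MvPolynomial.coe_basisMonomials]

/-- the weight -/
def wt (i : Σ _ : ℤ, ℕ →₀ ℕ) : ℤ := wt0 i.1 i.2

theorem gr0_eq (n : ℤ) : gr0 n = G bs wt n := by
  rw [gr0, G]
  congr 1
  ext v
  constructor
  · rintro ⟨k, d, h, rfl⟩
    exact ⟨⟨k, d⟩, h, bs_apply _⟩
  · rintro ⟨i, h, rfl⟩
    exact ⟨i.1, i.2, h, bs_apply _⟩

theorem sum_nonneg' (d : ℕ →₀ ℕ) : 0 ≤ d.sum fun i a => ((i : ℤ) + 1) * a :=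
  Finset.sum_nonneg fun i _ => by positivity

theorem sq_sub_nonneg (k : ℤ) : 0 ≤ k ^ 2 - k := by
  rcases le_or_gt k 0 with h | h
  · nlinarith
  · have : 1 ≤ k := h
    nlinarith

theorem wt_nonneg (i : Σ _ : ℤ, ℕ →₀ ℕ) : 0 ≤ wt i :=
  add_nonneg (sq_sub_nonneg _) (sum_nonneg' _)

theorem le_sum (d : ℕ →₀ ℕ) (i : ℕ) : ((i : ℤ) + 1) * d i ≤ d.sum fun i a => ((i : ℤ) + 1) * a := by
  by_cases hi : i ∈ d.support
  · exact Finset.single_le_sum (f := fun i : ℕ => ((i : ℤ) + 1) * (d i : ℤ))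
      (fun i _ => by positivity) hi
  · rw [Finsupp.notMem_support_iff] at hi
    rw [hi]
    simpa using sum_nonneg' d

theorem finite_wt (n : ℤ) : {i | wt i = n}.Finite := by
  classical
  let E : ℕ →₀ ℕ := Finsupp.indicator (Finset.range n.toNat) (fun _ _ => n.toNat)
  refine (((Set.finite_Icc (-(n + 1)) (n + 1)).prod (Set.finite_Iic E)).image
    (fun p : ℤ × (ℕ →₀ ℕ) => (⟨p.1, p.2⟩ : Σ _ : ℤ, ℕ →₀ ℕ))).subset ?_
  rintro ⟨k, d⟩ h
  have h0 : k ^ 2 - k + (d.sum fun i a => ((i : ℤ) + 1) * a) = n := h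
  have h1 := sum_nonneg' d
  have h2 := sq_sub_nonneg k
  refine ⟨(k, d), ⟨?_, ?_⟩, rfl⟩
  · rw [Set.mem_Icc]
    constructor
    · nlinarith
    · nlinarith
  · rw [Set.mem_Iic]
    intro i
    have h3 := le_sum d i
    have h4 : ((i : ℤ) + 1) * d i ≤ n := by linarith
    by_cases hd : d i = 0
    · rw [hd]; exact Nat.zero_le _
    · have h5 : 1 ≤ d i := Nat.one_le_iff_ne_zero.2 hd
      have h6 : i ∈ Finset.range n.toNat := by
        rw [Finset.mem_range]
        have : ((i : ℤ) + 1) * 1 ≤ ((i : ℤ) + 1) * d i := by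
          apply mul_le_mul_of_nonneg_left _ (by positivity)
          exact_mod_cast h5
        omega
      have h7 : E i = n.toNat := Finsupp.indicator_of_mem h6 _
      rw [h7]
      have h8 : (1 : ℤ) * d i ≤ ((i : ℤ) + 1) * d i := by
        apply mul_le_mul_of_nonneg_right _ (by positivity)
        omega
      change d i ≤ n.toNat
      omega

theorem main : S_GR := by
  have hgr : gr0 = G bs wt := funext gr0_eq
  refine ⟨?_, fun n => ?_, fun n hn => ?_, fun L hL n v => ?_⟩
  · rw [hgr]; exact internal bs wt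
  · rw [gr0_eq, G]
    exact FiniteDimensional.span_of_finite ℂ ((finite_wt n).image _)
  · rw [gr0_eq, G]
    have : {i | wt i = n} = ∅ := by
      ext i
      simp only [Set.mem_ofPred_eq, Set.mem_empty_iff_false, iff_false]
      have := wt_nonneg i
      omega
    rw [this]; simp
  · rw [gr0_eq]
    refine mem_G_iff bs wt L (fun i => ?_) n v
    rw [bs_apply]
    exact hL i.1 i.2

end

end Pool.Agent.W371.VA.GR
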