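import Pool.Agent.W128.VA.Stm

set_option autoImplicit false

namespace Pool.Agent.W371.VA.TT

open Pool.Agent.W128.VA MvPolynomial

noncomputable section

/-- `D` as a derivation -/
def D' : Derivation ℂ R0 R0 :=
  MvPolynomial.mkDerivation ℂ fun i : ℕ => (((i : ℂ) + 1) • (MvPolynomial.X (i + 1) : R0))

theorem D_eq (p : R0) : D p = D' p := rfl

theorem comm_zero (p : R0) : pderiv 0 (D p) = D (pderiv 0 p) := by
  have h : ⁅(pderiv 0 : Derivation ℂ R0 R0), D'⁆ = 0 := by
    refine MvPolynomial.derivation_ext fun l => ?_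
    rw [Derivation.commutator_apply, D', mkDerivation_X, Derivation.map_smul, pderiv_X_of_ne
      (by omega)]
    rw [pderiv_X]
    by_cases hl : 0 = l
    · subst hl; simp
    · have : (Pi.single 0 1 : ℕ → R0) l = 0 := by
        rw [Pi.single_apply, if_neg (Ne.symm hl)]
      rw [this]; simp
  have h2 := congrArg (fun d : Derivation ℂ R0 R0 => d p) h
  simp only [Derivation.commutator_apply, Derivation.zero_apply] at h2
  rw [D_eq, D_eq]
  exact sub_eq_zero.1 h2

theorem comm_succ (i : ℕ) (p : R0) :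
    pderiv (i + 1) (D p) = D (pderiv (i + 1) p) + ((i : ℂ) + 1) • pderiv i p := by
  have h : ⁅(pderiv (i + 1) : Derivation ℂ R0 R0), D'⁆ =
      ((i : ℂ) + 1) • (pderiv i : Derivation ℂ R0 R0) := by
    refine MvPolynomial.derivation_ext fun l => ?_
    rw [Derivation.commutator_apply, D', mkDerivation_X, Derivation.map_smul,
      Derivation.smul_apply, pderiv_X, pderiv_X, pderiv_X]
    have h1 : mkDerivation ℂ (fun i : ℕ => (((i : ℂ) + 1) • (MvPolynomial.X (i + 1) : R0)))
        ((Pi.single (i + 1) 1 : ℕ → R0) l) = 0 := by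
      rw [Pi.single_apply]
      split_ifs <;> simp
    rw [h1, sub_zero, Pi.single_apply, Pi.single_apply]
    by_cases hl : l = i
    · subst hl; simp
    · rw [if_neg (by omega), if_neg hl]; simp
  have h2 := congrArg (fun d : Derivation ℂ R0 R0 => d p) h
  simp only [Derivation.commutator_apply, Derivation.smul_apply] at h2
  rw [D_eq, D_eq, ← h2]
  abel

theorem ind_lin {V : Type*} [AddCommGroup V] [Module ℂ V] (L : V0 →ₗ[ℂ] V)
    (h : ∀ k p, L (Finsupp.single k p) = 0) (v : V0) : L v = 0 := by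
  have : L = 0 := by
    refine Finsupp.lhom_ext fun k p => ?_
    rw [h]; rfl
  rw [this]; rfl

theorem hR_neg (i : ℕ) (k : ℤ) (p : R0) : hR (-((i : ℤ) + 1)) k p = X i * p := by
  have e1 : (-(-((i : ℤ) + 1)) - 1).toNat = i := by omega
  rw [hR, if_pos (by omega), e1]
  rfl

theorem hR_zero (k : ℤ) (p : R0) : hR 0 k p = (2 * (k : ℂ)) • p := by
  rw [hR, if_neg (by omega), if_pos rfl]
  rfl

theorem hR_pos (i : ℕ) (k : ℤ) (p : R0) :
    hR ((i : ℤ) + 1) k p = (2 * ((i : ℂ) + 1)) • pderiv i p := by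
  have e1 : ((i : ℤ) + 1 - 1).toNat = i := by omega
  rw [hR, if_neg (by omega), if_neg (by omega), e1]
  push_cast
  rfl

theorem hopT (n : ℤ) (w : V0) :
    T0 (hop n w) - hop n (T0 w) = (-(n : ℂ)) • hop (n - 1) w := by
  have key := ind_lin (T0 ∘ₗ hop n - hop n ∘ₗ T0 + (n : ℂ) • hop (n - 1)) (fun k p => ?_) w
  · simp only [LinearMap.add_apply, LinearMap.sub_apply, LinearMap.comp_apply,
      LinearMap.smul_apply] at key
    rw [neg_smul, eq_neg_iff_add_eq_zero]
    exact key
  simp only [LinearMap.add_apply, LinearMap.sub_apply, LinearMap.comp_apply,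
      LinearMap.smul_apply, hop_single, T0_single]
  rw [← Finsupp.single_sub, Finsupp.smul_single, ← Finsupp.single_add]
  rw [Finsupp.single_eq_zero]
  rcases lt_trichotomy n 0 with hn | hn | hn
  · obtain ⟨i, rfl⟩ : ∃ i : ℕ, n = -(i + 1) := ⟨(-n - 1).toNat, by omega⟩
    have e2 : (-((i : ℤ) + 1) - 1) = -(((i + 1 : ℕ) : ℤ) + 1) := by push_cast; ring
    rw [hR_neg, hR_neg, e2, hR_neg, D_mul, D_X]
    push_cast
    simp only [Algebra.smul_def, map_add, map_neg, map_one]
    ring
  · subst hn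
    rw [hR_zero, hR_zero, map_smul]
    simp only [Algebra.smul_def, Int.cast_zero, map_zero, zero_mul, add_zero]
    ring
  · obtain ⟨i, rfl⟩ : ∃ i : ℕ, n = i + 1 := ⟨(n - 1).toNat, by omega⟩
    rw [hR_pos, hR_pos, map_smul, map_add, Derivation.map_smul, Derivation.leibniz, smul_eq_mul,
      smul_eq_mul]
    rcases Nat.eq_zero_or_pos i with hi | hi
    · subst hi
      have e2 : ((0 : ℕ) : ℤ) + 1 - 1 = 0 := by simp
      rw [e2, hR_zero, comm_zero, pderiv_X_self]
      simp only [Algebra.smul_def, map_mul, map_add]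
      push_cast
      simp only [map_zero, map_ofNat]
      ring
    · obtain ⟨l, rfl⟩ : ∃ l : ℕ, i = l + 1 := ⟨i - 1, by omega⟩
      have e2 : ((l + 1 : ℕ) : ℤ) + 1 - 1 = (l : ℤ) + 1 := by push_cast; ring
      rw [e2, hR_pos, comm_succ, pderiv_X_of_ne (by omega)]
      simp only [Algebra.smul_def, map_mul, map_add]
      push_cast
      simp only [map_one, map_ofNat]
      ring

/-- the defect of translation covariance -/
def Psi (σ n : ℤ) : V0 →ₗ[ℂ] V0 :=
  T0 ∘ₗ eV σ n - eV σ n ∘ₗ T0 + (n : ℂ) • eV σ (n - 1)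

theorem Psi_apply (σ n : ℤ) (v : V0) :
    Psi σ n v = T0 (eV σ n v) - eV σ n (T0 v) + (n : ℂ) • eV σ (n - 1) v := rfl

theorem Psi_hop (hHE : S_HE) (σ n m : ℤ) (v : V0) :
    Psi σ n (hop m v) = hop m (Psi σ n v) - (2 * (σ : ℂ)) • Psi σ (m + n) v := by
  have h1 : eV σ n (hop m v) = hop m (eV σ n v) - (2 * (σ : ℂ)) • eV σ (m + n) v := by
    rw [← hHE]; abel
  have h2 : eV σ (n - 1) (hop m v) = hop m (eV σ (n - 1) v)
      - (2 * (σ : ℂ)) • eV σ (m + n - 1) v := by
    rw [show m + n - 1 = m + (n - 1) by ring, ← hHE]; abel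
  have h3 : T0 (hop m v) = hop m (T0 v) - (m : ℂ) • hop (m - 1) v := by
    have := hopT m v
    rw [neg_smul, sub_eq_iff_eq_add] at this
    rw [this]; abel
  have h4 : T0 (hop m (eV σ n v)) = hop m (T0 (eV σ n v)) - (m : ℂ) • hop (m - 1) (eV σ n v) := by
    have := hopT m (eV σ n v)
    rw [neg_smul, sub_eq_iff_eq_add] at this
    rw [this]; abel
  have h5 : eV σ n (hop m (T0 v)) = hop m (eV σ n (T0 v)) - (2 * (σ : ℂ)) • eV σ (m + n) (T0 v) := by
    rw [← hHE]; abel
  have h6 : eV σ n (hop (m - 1) v) = hop (m - 1) (eV σ n v)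
      - (2 * (σ : ℂ)) • eV σ (m + n - 1) v := by
    rw [show m + n - 1 = m - 1 + n by ring, ← hHE]; abel
  rw [Psi_apply, Psi_apply, Psi_apply, h1, h2, h3, map_sub, map_sub, map_smul, map_smul, h4, h5,
    h6, map_add, map_sub, map_smul]
  push_cast
  module

theorem main : S_PDER → S_EOPC → S_HE → S_TT := by
  intro hP hC hHE
  refine ⟨hopT, fun σ => ?_⟩
  have base : ∀ (n k : ℤ), Psi σ n (Finsupp.single k 1) = 0 := by
    intro n k
    have e1 : ∀ s : ℤ, eop σ s 1 = PZ σ s := fun s => (hC σ s).2.2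
    have hD1 : D (1 : R0) = 0 := by rw [D_eq]; exact Derivation.map_one_eq_zero _
    have hD : ∀ a : ℤ, D (PZ σ a) = ((a : ℂ) + 1) • PZ σ (a + 1) - (σ : ℂ) • (X 0 * PZ σ a) := by
      intro a
      rcases lt_trichotomy a (-1) with ha | ha | ha
      · rw [PZ, if_neg (by omega), PZ, if_neg (by omega)]; simp
      · subst ha
        have : PZ σ (-1) = 0 := if_neg (by omega)
        rw [this]; simp
      · obtain ⟨i, rfl⟩ : ∃ i : ℕ, a = i := ⟨a.toNat, by omega⟩
        have h1 := (hP σ i).2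
        have h2 : PZ σ i = P σ i := by rw [PZ, if_pos (by omega), Int.toNat_natCast]
        have h3 : PZ σ ((i : ℤ) + 1) = P σ (i + 1) := by
          rw [PZ, if_pos (by omega)]; congr 1
        rw [h2, h3, h1]; simp
    rw [Psi_apply, eV_single, T0_single, T0_single, eV_single, eV_single, hD1, zero_add, map_smul,
      (hC σ _).1, e1, e1, e1, hD, Finsupp.smul_single, ← Finsupp.single_sub, ← Finsupp.single_add,
      Finsupp.single_eq_zero]
    rw [show -n - 1 - 2 * σ * k + (((0 : ℕ) : ℤ) + 1) = -n - 1 - 2 * σ * k + 1 by simp,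
      show -(n - 1) - 1 - 2 * σ * k = -n - 1 - 2 * σ * k + 1 by ring]
    push_cast
    module
  have hall : ∀ (p : R0) (n k : ℤ), Psi σ n (Finsupp.single k p) = 0 := by
    intro p
    induction p using MvPolynomial.induction_on with
    | C a =>
      intro n k
      have : Finsupp.single k (C a : R0) = a • Finsupp.single k (1 : R0) := by
        rw [Finsupp.smul_single, MvPolynomial.smul_eq_C_mul, mul_one]
      rw [this, map_smul, base, smul_zero]
    | add p q hp hq =>
      intro n k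
      rw [Finsupp.single_add, map_add, hp, hq, add_zero]
    | mul_X p i hp =>
      intro n k
      have : Finsupp.single k (p * X i : R0) = hop (-((i : ℤ) + 1)) (Finsupp.single k p) := by
        rw [hop_single, hR_neg, mul_comm]
      rw [this, Psi_hop hHE, hp, hp, map_zero, smul_zero, sub_zero]
  intro n w
  have key := ind_lin (Psi σ n) (fun k p => hall p n k) w
  rw [Psi_apply] at key
  rw [neg_smul, eq_neg_iff_add_eq_zero]
  exact key

end

end Pool.Agent.W371.VA.TT
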